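import Pool.Agent.Run7.h802.HP.Iface

/-! Piece ELIM of the project HP of helper802. -/

set_option autoImplicit false

namespace Pool.Agent.Run7.h115.HPE

open MvPolynomial Pool.Agent.Run7.h802.HP

/-- The point `(y + l t, t)`. -/
def pt {R : Type} [CommRing R] {N : ℕ} (l : Fin N → ℤ) (y : Fin N → R) (t : R) :
    Fin (N + 1) → R :=
  Fin.snoc (α := fun _ => R) (fun i => y i + l i * t) t

theorem pt_castSucc {R : Type} [CommRing R] {N : ℕ} (l : Fin N → ℤ) (y : Fin N → R) (t : R)
    (i : Fin N) : pt l y t i.castSucc = y i + l i * t := by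
  simp [pt]

theorem pt_last {R : Type} [CommRing R] {N : ℕ} (l : Fin N → ℤ) (y : Fin N → R) (t : R) :
    pt l y t (Fin.last N) = t := by
  simp [pt]

/-- The polynomial `h (y + l t, t)` in the variable `t`. -/
noncomputable def P {R : Type} [CommRing R] {N : ℕ} (l : Fin N → ℤ) (y : Fin N → R)
    (h : MvPolynomial (Fin (N + 1)) ℤ) : Polynomial R :=
  aeval (pt l (fun i => Polynomial.C (y i)) Polynomial.X) h

theorem eval_P {R : Type} [CommRing R] {N : ℕ} (l : Fin N → ℤ) (y : Fin N → R)
    (h : MvPolynomial (Fin (N + 1)) ℤ) (t : R) :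
    Polynomial.eval t (P l y h) = aeval (pt l y t) h := by
  have := MvPolynomial.comp_aeval_apply (R := ℤ)
    (pt l (fun i => Polynomial.C (y i)) (Polynomial.X : Polynomial R))
    ((Polynomial.aeval t : Polynomial R →ₐ[R] R).restrictScalars ℤ) h
  rw [P]
  have h2 : ∀ p : Polynomial R, Polynomial.eval t p =
      ((Polynomial.aeval t : Polynomial R →ₐ[R] R).restrictScalars ℤ) p := by
    intro p; simp [Polynomial.coe_aeval_eq_eval]
  rw [h2, this]
  congr 2
  funext i
  rw [← h2]
  refine Fin.lastCases ?_ (fun i => ?_) i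
  · rw [pt_last, pt_last]; simp
  · rw [pt_castSucc, pt_castSucc]; simp

theorem prodDeg {R : Type} [CommRing R] {ι : Type} (s : Finset ι) (f : ι → Polynomial R)
    (hf : ∀ i, (f i).natDegree ≤ 1) (m : ι → ℕ) :
    (∏ i ∈ s, f i ^ m i).natDegree ≤ ∑ i ∈ s, m i ∧
    (∏ i ∈ s, f i ^ m i).coeff (∑ i ∈ s, m i) = ∏ i ∈ s, (f i).coeff 1 ^ m i := by
  classical
  induction s using Finset.induction_on with
  | empty => simp
  | insert a s ha ih =>
    rw [Finset.prod_insert ha, Finset.sum_insert ha, Finset.prod_insert ha]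
    have h1 : (f a ^ m a).natDegree ≤ m a := by
      have := Polynomial.natDegree_pow_le_of_le (m a) (hf a)
      simpa using this
    refine ⟨Polynomial.natDegree_mul_le_of_le h1 ih.1, ?_⟩
    rw [Polynomial.coeff_mul_add_eq_of_natDegree_le h1 ih.1, ih.2]
    congr 1
    have := Polynomial.coeff_pow_of_natDegree_le (m := m a) (hf a)
    simpa using this

/-- The top coefficient. -/
noncomputable def top {N : ℕ} (D : ℕ) (h : MvPolynomial (Fin (N + 1)) ℤ) (l : Fin N → ℤ) : ℤ :=
  ∑ m ∈ h.support, if ∑ i, m i = D then coeff m h * ∏ i : Fin N, l i ^ m i.castSucc else 0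

theorem P_deg {R : Type} [CommRing R] {N : ℕ} (l : Fin N → ℤ) (y : Fin N → R)
    (h : MvPolynomial (Fin (N + 1)) ℤ) (D : ℕ) (hD : ∀ m ∈ h.support, ∑ i, m i ≤ D) :
    (P l y h).natDegree ≤ D ∧ (P l y h).coeff D = (top D h l : R) := by
  have hf : ∀ i, (pt l (fun i => Polynomial.C (y i)) (Polynomial.X : Polynomial R) i).natDegree
      ≤ 1 := by
    intro i
    refine Fin.lastCases ?_ (fun i => ?_) i
    · rw [pt_last]; exact Polynomial.natDegree_X_le
    · rw [pt_castSucc]
      refine Polynomial.natDegree_add_le_of_degree_le (by simp) ?_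
      refine le_trans Polynomial.natDegree_mul_le ?_
      have : ((l i : ℤ) : Polynomial R).natDegree = 0 := Polynomial.natDegree_intCast _
      rw [this, zero_add]
      exact Polynomial.natDegree_X_le
  have hc : ∀ i, (pt l (fun i => Polynomial.C (y i)) (Polynomial.X : Polynomial R) i).coeff 1 =
      (Fin.snoc (α := fun _ => R) (fun i => (l i : R)) 1 : Fin (N + 1) → R) i := by
    intro i
    refine Fin.lastCases ?_ (fun i => ?_) i
    · rw [pt_last]; simp
    · rw [pt_castSucc, Polynomial.coeff_add, Polynomial.coeff_C]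
      rw [← Polynomial.C_eq_intCast, Polynomial.coeff_C_mul]
      simp
  have e1 : P l y h = ∑ m ∈ h.support, Polynomial.C ((coeff m h : ℤ) : R) *
      ∏ i, pt l (fun i => Polynomial.C (y i)) (Polynomial.X : Polynomial R) i ^ m i := by
    rw [P]
    conv_lhs => rw [h.as_sum]
    rw [map_sum]
    refine Finset.sum_congr rfl fun m _ => ?_
    rw [aeval_monomial, Finsupp.prod_fintype _ _ (fun i => pow_zero _)]
    simp
  constructor
  · rw [e1]
    refine Polynomial.natDegree_sum_le_of_forall_le _ _ fun m hm => ?_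
    refine le_trans (Polynomial.natDegree_C_mul_le _ _) ?_
    exact le_trans (prodDeg Finset.univ _ hf m).1 (hD m hm)
  · rw [e1, Polynomial.finsetSum_coeff, top]
    push_cast
    refine Finset.sum_congr rfl fun m hm => ?_
    rw [Polynomial.coeff_C_mul]
    by_cases hs : ∑ i, m i = D
    · rw [if_pos hs, ← hs, (prodDeg Finset.univ _ hf m).2]
      simp_rw [hc]
      rw [Fin.prod_univ_castSucc]
      simp
    · rw [if_neg hs]
      have : (∏ i, pt l (fun i => Polynomial.C (y i)) (Polynomial.X : Polynomial R) i ^ m i).coeff D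
          = 0 := by
        refine Polynomial.coeff_eq_zero_of_natDegree_lt ?_
        exact lt_of_le_of_lt (prodDeg Finset.univ _ hf m).1 (lt_of_le_of_ne (hD m hm) hs)
      rw [this]; simp

theorem exists_top {N : ℕ} (h : MvPolynomial (Fin (N + 1)) ℤ) (h0 : h ≠ 0) :
    ∃ D : ℕ, (∀ m ∈ h.support, ∑ i, m i ≤ D) ∧ ∃ l : Fin N → ℤ, top D h l ≠ 0 := by
  classical
  have hne : h.support.Nonempty := by
    rw [Finset.nonempty_iff_ne_empty]
    intro h1
    exact h0 (MvPolynomial.support_eq_empty.1 h1)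
  obtain ⟨m0, hm0, hmax⟩ := Finset.exists_max_image h.support (fun m => ∑ i, m i) hne
  refine ⟨∑ i, m0 i, hmax, ?_⟩
  by_contra hcon
  push Not at hcon
  set q : MvPolynomial (Fin N) ℤ := ∑ m ∈ h.support, if ∑ i, m i = ∑ i, m0 i then
    monomial (Finsupp.equivFunOnFinite.symm fun i : Fin N => m i.castSucc) (coeff m h) else 0
    with hq
  have hq0 : q = 0 := by
    refine MvPolynomial.funext fun l => ?_
    rw [map_zero, ← hcon l, hq, map_sum, top]
    refine Finset.sum_congr rfl fun m _ => ?_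
    split_ifs with hs
    · rw [eval_monomial, Finsupp.prod_fintype _ _ (fun i => pow_zero _)]
      simp
    · simp
  have hq1 : coeff (Finsupp.equivFunOnFinite.symm fun i : Fin N => m0 i.castSucc) q =
      coeff m0 h := by
    rw [hq, coeff_sum, Finset.sum_eq_single m0]
    · rw [if_pos rfl, coeff_monomial, if_pos rfl]
    · intro m hm hne
      split_ifs with hs
      · rw [coeff_monomial, if_neg]
        intro he
        apply hne
        have he' : ∀ i : Fin N, m i.castSucc = m0 i.castSucc := by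
          intro i
          have := DFunLike.congr_fun he i
          simpa using this
        ext i
        refine Fin.lastCases ?_ (fun i => he' i) i
        rw [Fin.sum_univ_castSucc, Fin.sum_univ_castSucc] at hs
        have : ∑ i : Fin N, m i.castSucc = ∑ i : Fin N, m0 i.castSucc :=
          Finset.sum_congr rfl fun i _ => he' i
        omega
      · simp
    · intro h1; exact absurd hm0 h1
  rw [hq0] at hq1
  exact (MvPolynomial.mem_support_iff.1 hm0) (by rw [← hq1]; simp)

attribute [local instance] MvPolynomial.algebraMvPolynomial in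
theorem clearDen {σ : Type} (z : MvPolynomial σ ℚ) : ∃ M : ℤ, M ≠ 0 ∧
    ∃ z' : MvPolynomial σ ℤ, map (Int.castRingHom ℚ) z' = C (M : ℚ) * z := by
  obtain ⟨⟨x, s⟩, hx⟩ := IsLocalization.surj
    ((nonZeroDivisors ℤ).map (C (σ := σ) : ℤ →+* MvPolynomial σ ℤ)) z
  obtain ⟨s, M, hM, rfl⟩ := s
  refine ⟨M, nonZeroDivisors.ne_zero hM, x, ?_⟩
  simp only [algebraMap_def, algebraMap_int_eq] at hx
  rw [← hx, mul_comm]
  simp

/-- The change of variables and its inverse. -/
noncomputable def Phi {N : ℕ} (l : Fin N → ℤ) : MvPolynomial (Fin (N + 1)) ℚ →+*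
    Polynomial (MvPolynomial (Fin N) ℚ) :=
  (aeval (R := ℚ) (pt l (fun i => Polynomial.C (X i : MvPolynomial (Fin N) ℚ))
    Polynomial.X)).toRingHom

noncomputable def psi {N : ℕ} (l : Fin N → ℤ) (K : Type) [CommRing K] : MvPolynomial (Fin N) K →+*
    MvPolynomial (Fin (N + 1)) K :=
  (aeval (R := K) fun i : Fin N => (X i.castSucc : MvPolynomial (Fin (N + 1)) K) -
    ((l i : ℤ) : MvPolynomial (Fin (N + 1)) K) * X (Fin.last N)).toRingHom

noncomputable def Psi {N : ℕ} (l : Fin N → ℤ) : Polynomial (MvPolynomial (Fin N) ℚ) →+*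
    MvPolynomial (Fin (N + 1)) ℚ :=
  Polynomial.eval₂RingHom (psi l ℚ) (X (Fin.last N))

theorem Psi_C {N : ℕ} (l : Fin N → ℤ) (p : MvPolynomial (Fin N) ℚ) :
    Psi l (Polynomial.C p) = psi l ℚ p := by
  simp [Psi]

theorem Psi_X {N : ℕ} (l : Fin N → ℤ) : Psi l Polynomial.X = X (Fin.last N) := by
  simp [Psi]

theorem Psi_Phi {N : ℕ} (l : Fin N → ℤ) (p : MvPolynomial (Fin (N + 1)) ℚ) :
    Psi l (Phi l p) = p := by
  have : (Psi l).comp (Phi l) = RingHom.id _ := by
    refine MvPolynomial.ringHom_ext (fun r => ?_) (fun i => ?_)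
    · simp [Psi, Phi, psi]
    · have h1 : Phi l (X i) = pt l (fun i => Polynomial.C (X i : MvPolynomial (Fin N) ℚ))
          Polynomial.X i := by simp [Phi]
      rw [RingHom.comp_apply, h1]
      refine Fin.lastCases ?_ (fun i => ?_) i
      · rw [pt_last, Psi_X]; rfl
      · rw [pt_castSucc, map_add, map_mul, map_intCast, Psi_X, Psi_C]
        simp [psi]
  exact DFunLike.congr_fun this p

theorem Phi_Psi {N : ℕ} (l : Fin N → ℤ) (p : Polynomial (MvPolynomial (Fin N) ℚ)) :
    Phi l (Psi l p) = p := by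
  have : (Phi l).comp (Psi l) = RingHom.id _ := by
    refine Polynomial.ringHom_ext' ?_ ?_
    · refine MvPolynomial.ringHom_ext (fun r => ?_) (fun i => ?_)
      · simp [Psi, Phi, psi]
      · simp [Psi, Phi, psi, pt_castSucc, pt_last]
    · simp [Psi, Phi, psi, pt_last]
  exact DFunLike.congr_fun this p

theorem Phi_map {N : ℕ} (l : Fin N → ℤ) (h : MvPolynomial (Fin (N + 1)) ℤ) :
    Phi l (map (Int.castRingHom ℚ) h) = P l (fun i => (X i : MvPolynomial (Fin N) ℚ)) h := by
  have : (Phi l).comp (map (Int.castRingHom ℚ)) = (aeval (R := ℤ)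
      (pt l (fun i => Polynomial.C (X i : MvPolynomial (Fin N) ℚ)) Polynomial.X)).toRingHom := by
    refine MvPolynomial.ringHom_ext (fun r => ?_) (fun i => ?_)
    · simp [Phi]
    · simp [Phi]
  exact DFunLike.congr_fun this h

theorem relPrime_Phi {N : ℕ} (l : Fin N → ℤ) (p q : MvPolynomial (Fin (N + 1)) ℚ)
    (hpq : IsRelPrime p q) : IsRelPrime (Phi l p) (Phi l q) := by
  intro d h1 h2
  have h3 : IsUnit (Psi l d) := by
    refine hpq ?_ ?_
    · have := map_dvd (Psi l) h1; rwa [Psi_Phi] at this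
    · have := map_dvd (Psi l) h2; rwa [Psi_Phi] at this
  have := h3.map (Phi l)
  rwa [Phi_Psi] at this

/-- Elimination over a monic polynomial. -/
theorem elimMonic {A : Type} [CommRing A] [IsDomain A] [UniqueFactorizationMonoid A]
    (H G : Polynomial A) (hH : H.Monic) (hrel : IsRelPrime H G) :
    ∃ r : A, r ≠ 0 ∧ ∃ U V : Polynomial A, Polynomial.C r = G * U + H * V := by
  classical
  have : Module.Finite A (AdjoinRoot H) := hH.finite_adjoinRoot
  have : Algebra.IsIntegral A (AdjoinRoot H) := Algebra.IsIntegral.of_finite A _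
  have halg : IsAlgebraic A (AdjoinRoot.mk H G) :=
    (Algebra.IsIntegral.isIntegral (R := A) (AdjoinRoot.mk H G)).isAlgebraic
  have hnz : AdjoinRoot.mk H G ∈ nonZeroDivisors (AdjoinRoot H) := by
    rw [mem_nonZeroDivisors_iff_right]
    intro x hx
    obtain ⟨u, rfl⟩ := AdjoinRoot.mk_surjective x
    rw [← map_mul, AdjoinRoot.mk_eq_zero] at hx
    rw [AdjoinRoot.mk_eq_zero]
    exact hrel.dvd_of_dvd_mul_right hx
  obtain ⟨r, hr, x, hx⟩ := halg.exists_nonzero_dvd hnz
  obtain ⟨U, rfl⟩ := AdjoinRoot.mk_surjective x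
  refine ⟨r, hr, U, ?_⟩
  rw [← map_mul, AdjoinRoot.algebraMap_eq, ← AdjoinRoot.mk_C, AdjoinRoot.mk_eq_mk] at hx
  obtain ⟨V, hV⟩ := hx
  exact ⟨V, by rw [← hV]; ring⟩

theorem elim : S_ELIM := by
  classical
  intro N h g h0 hrel
  obtain ⟨D, hD, l, hl⟩ := exists_top h h0
  -- the elimination over the rationals
  have key : ∃ r : MvPolynomial (Fin N) ℚ, r ≠ 0 ∧ ∃ U V : MvPolynomial (Fin (N + 1)) ℚ,
      psi l ℚ r = map (Int.castRingHom ℚ) g * U + map (Int.castRingHom ℚ) h * V := by
    set H := Phi l (map (Int.castRingHom ℚ) h) with hH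
    set G := Phi l (map (Int.castRingHom ℚ) g) with hG
    have hdeg := P_deg l (fun i => (X i : MvPolynomial (Fin N) ℚ)) h D hD
    rw [← Phi_map, ← hH] at hdeg
    have he : (C ((top D h l : ℤ) : ℚ) : MvPolynomial (Fin N) ℚ) ≠ 0 := by
      rw [Ne, MvPolynomial.C_eq_zero]; exact_mod_cast hl
    have hcD : H.coeff D = C ((top D h l : ℤ) : ℚ) := by
      rw [hdeg.2]; simp
    set c : Polynomial (MvPolynomial (Fin N) ℚ) :=
      Polynomial.C (C (((top D h l : ℤ) : ℚ)⁻¹)) with hc
    have hcu : IsUnit c := by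
      rw [hc]
      refine IsUnit.map Polynomial.C (IsUnit.map C ?_)
      exact (isUnit_iff_ne_zero.2 (inv_ne_zero (by exact_mod_cast hl)))
    have hmonic : (c * H).Monic := by
      refine Polynomial.monic_of_natDegree_le_of_coeff_eq_one D ?_ ?_
      · exact le_trans (Polynomial.natDegree_C_mul_le _ _) hdeg.1
      · rw [hc, Polynomial.coeff_C_mul, hcD, ← C_mul, inv_mul_cancel₀ (by exact_mod_cast hl)]
        simp
    have hrel' : IsRelPrime (c * H) G := by
      intro d h1 h2
      refine relPrime_Phi l _ _ hrel ?_ h2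
      exact (hcu.dvd_mul_left).1 h1
    obtain ⟨r, hr, U, V, hUV⟩ := elimMonic (c * H) G hmonic hrel'
    refine ⟨r, hr, Psi l U, Psi l c * Psi l V, ?_⟩
    have := congrArg (Psi l) hUV
    rw [map_add, map_mul, map_mul, map_mul, hG, hH, Psi_Phi, Psi_Phi] at this
    have h2 : Psi l (Polynomial.C r) = psi l ℚ r := by simp [Psi]
    rw [h2] at this
    rw [this]; ring
  obtain ⟨r, hr, U, V, hUV⟩ := key
  obtain ⟨M1, hM1, r1, hr1⟩ := clearDen r
  obtain ⟨M2, hM2, U1, hU1⟩ := clearDen U
  obtain ⟨M3, hM3, V1, hV1⟩ := clearDen V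
  have hid : psi l ℤ (C (M2 * M3) * r1) = g * (C (M1 * M3) * U1) + h * (C (M1 * M2) * V1) := by
    apply MvPolynomial.map_injective (Int.castRingHom ℚ) (Int.cast_injective)
    have h1 : ∀ p : MvPolynomial (Fin N) ℤ, map (Int.castRingHom ℚ) (psi l ℤ p) =
        psi l ℚ (map (Int.castRingHom ℚ) p) := by
      intro p
      have : (map (Int.castRingHom ℚ)).comp (psi l ℤ) =
          (psi l ℚ).comp (map (Int.castRingHom ℚ)) := by
        refine MvPolynomial.ringHom_ext (fun r => ?_) (fun i => ?_)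
        · simp [psi]
        · simp [psi]
      exact DFunLike.congr_fun this p
    rw [h1]
    simp only [map_mul, map_add, map_C, hr1, hU1, hV1, hUV]
    have h2 : ∀ q : ℚ, psi l ℚ (C q) = C q := by intro q; simp [psi]
    simp only [h2]
    simp only [eq_intCast]
    ring
  refine ⟨l, D, top D h l, C (M2 * M3) * r1, hl, ?_, ?_, ?_⟩
  · refine mul_ne_zero ?_ ?_
    · rw [Ne, MvPolynomial.C_eq_zero]; exact mul_ne_zero hM2 hM3
    · rintro rfl
      rw [map_zero] at hr1
      have := mul_eq_zero.1 hr1.symm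
      rcases this with h1 | h1
      · rw [MvPolynomial.C_eq_zero] at h1; exact hM1 (by exact_mod_cast h1)
      · exact hr h1
  · intro R _ y t
    have h1 : aeval y (C (M2 * M3) * r1) = aeval (pt l y t) (psi l ℤ (C (M2 * M3) * r1)) := by
      generalize C (M2 * M3) * r1 = p
      have := MvPolynomial.comp_aeval_apply (R := ℤ)
        (fun i : Fin N => (X i.castSucc : MvPolynomial (Fin (N + 1)) ℤ) -
          ((l i : ℤ) : MvPolynomial (Fin (N + 1)) ℤ) * X (Fin.last N))
        (aeval (R := ℤ) (pt l y t)) p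
      change _ = aeval (pt l y t) (aeval _ p)
      rw [this]
      congr 2
      funext i
      simp [pt_castSucc, pt_last]
    rw [h1, hid, map_add, map_mul _ g, map_mul _ h]
    change _ ∈ Ideal.span {aeval (pt l y t) h, aeval (pt l y t) g}
    have m1 : aeval (pt l y t) h ∈ Ideal.span {aeval (pt l y t) h, aeval (pt l y t) g} :=
      Ideal.subset_span (Set.mem_insert _ _)
    have m2 : aeval (pt l y t) g ∈ Ideal.span {aeval (pt l y t) h, aeval (pt l y t) g} :=
      Ideal.subset_span (Set.mem_insert_of_mem _ rfl)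
    exact Ideal.add_mem _ (Ideal.mul_mem_right _ _ m2) (Ideal.mul_mem_right _ _ m1)
  · intro k _ y he
    change {t : k | aeval (pt l y t) h = 0}.encard ≤ D
    have hdeg := P_deg l y h D hD
    have hP0 : P l y h ≠ 0 := by
      intro h1
      rw [h1] at hdeg
      apply he
      rw [← hdeg.2, Polynomial.coeff_zero]
    have hsub : {t : k | aeval (pt l y t) h = 0} ⊆ ((P l y h).roots.toFinset : Set k) := by
      intro t ht
      simp only [Finset.mem_coe, Multiset.mem_toFinset, Polynomial.mem_roots hP0,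
        Polynomial.IsRoot.def]
      rw [eval_P]; exact ht
    refine le_trans (Set.encard_le_encard hsub) ?_
    rw [Set.encard_coe_eq_coe_finsetCard]
    have h1 : (P l y h).roots.toFinset.card ≤ D :=
      le_trans (Multiset.toFinset_card_le _) (le_trans (Polynomial.card_roots' _) hdeg.1)
    exact_mod_cast h1

end Pool.Agent.Run7.h115.HPE
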